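import Pool.Agent.Helper46.C2.St

/-! Project C2, module HOM: homomorphisms to a finite field. -/

set_option autoImplicit false

namespace Pool.Agent.Helper28.C2

open Pool.Agent.Helper46.C2 Pool.Agent.Helper43.GD

/-- two homomorphisms which agree at the generator are equal -/
private theorem hom_ext {L K : Type} [CommRing L] [Field K] (x : L) (hx : Gn x)
    (φ ψ : L →+* K) (h : φ x = ψ x) : φ = ψ := by
  have h1 : ∀ y, y ∈ (RingHom.eqLocus φ ψ).toAddSubgroup := by
    refine hx _ ?_ ?_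
    · exact (RingHom.eqLocus φ ψ).one_mem
    · intro y hy
      show φ (x * y) = ψ (x * y)
      have hy' : φ y = ψ y := hy
      rw [map_mul, map_mul, h, hy']
  ext y
  exact h1 y

private theorem ker_count {L : Type} [CommRing L] [Finite L] (h2 : (2 : L) = 0) (h f : ℕ)
    (hh : h ≠ 0) (hf : f ∣ h) (I : Ideal L) (hI : I.IsMaximal) (hc : Nat.card (L ⧸ I) = 2 ^ f) :
    f ≤ Nat.card {φ : L →+* GaloisField 2 h // RingHom.ker φ = I} := by
  let _ : Field (L ⧸ I) := Ideal.Quotient.field I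
  have h2' : (2 : L ⧸ I) = 0 := by
    have e : Ideal.Quotient.mk I (2 : L) = 0 := by rw [h2, map_zero]
    rwa [map_ofNat] at e
  have : CharP (L ⧸ I) 2 := CharTwo.of_one_ne_zero_of_two_eq_zero one_ne_zero h2'
  let _ : Algebra (ZMod 2) (L ⧸ I) := ZMod.algebra _ 2
  have : Finite (L ⧸ I) := Finite.of_surjective _ (Ideal.Quotient.mk_surjective (I := I))
  have : Finite (GaloisField 2 h) := inferInstance
  have hfr : Module.finrank (ZMod 2) (L ⧸ I) = f := by
    have e : Nat.card (L ⧸ I) = Nat.card (ZMod 2) ^ Module.finrank (ZMod 2) (L ⧸ I) :=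
      Module.natCard_eq_pow_finrank
    rw [hc, Nat.card_zmod] at e
    exact (Nat.pow_right_injective (le_refl 2) e).symm
  have hfK : Module.finrank (ZMod 2) (GaloisField 2 h) = h := GaloisField.finrank 2 hh
  have hd : Module.finrank (ZMod 2) (L ⧸ I) ∣ Module.finrank (ZMod 2) (GaloisField 2 h) := by
    rw [hfr, hfK]
    exact hf
  have hn := FiniteField.natCard_algHom_of_finrank_dvd (F := ZMod 2) (K := L ⧸ I)
    (L := GaloisField 2 h) hd
  rw [hfr] at hn
  have : Finite (L →+* GaloisField 2 h) :=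
    Finite.of_injective (fun φ => (φ : L → GaloisField 2 h)) DFunLike.coe_injective
  let j : (L ⧸ I →ₐ[ZMod 2] GaloisField 2 h) →
      {φ : L →+* GaloisField 2 h // RingHom.ker φ = I} := fun ψ =>
    ⟨(ψ : L ⧸ I →+* GaloisField 2 h).comp (Ideal.Quotient.mk I), by
      ext y
      rw [RingHom.mem_ker, RingHom.comp_apply, map_eq_zero, Ideal.Quotient.eq_zero_iff_mem]⟩
  have hj : Function.Injective j := by
    intro ψ ψ' e
    have e1 : (ψ : L ⧸ I →+* GaloisField 2 h).comp (Ideal.Quotient.mk I) =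
        (ψ' : L ⧸ I →+* GaloisField 2 h).comp (Ideal.Quotient.mk I) := congrArg Subtype.val e
    ext y
    obtain ⟨z, rfl⟩ := Ideal.Quotient.mk_surjective y
    exact congrArg (fun φ : L →+* GaloisField 2 h => φ z) e1
  rw [← hn]
  exact Nat.card_le_card_of_injective j hj

theorem hHOM (h1 : StLF) (_h2 : StC4) : StHOM := by
  intro k L _ x hR h hh F hF
  have : Finite L := h1 k L x hR
  have : Finite (Ideal L) :=
    Finite.of_injective (fun I => (I : Set L)) SetLike.coe_injective
  have : Finite (GaloisField 2 h) := inferInstance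
  have : Finite (L →+* GaloisField 2 h) :=
    Finite.of_injective (fun φ => (φ : L → GaloisField 2 h)) DFunLike.coe_injective
  classical
  have : Fintype (Ideal L) := Fintype.ofFinite _
  have hsum : ∀ f ∈ F, f * NF L f ≤ ∑ I : {I : Ideal L // I.IsMaximal ∧ Nat.card (L ⧸ I) = 2 ^ f},
      Nat.card {φ : L →+* GaloisField 2 h // RingHom.ker φ = I.1} := by
    intro f hf
    have h3 : ∑ _I : {I : Ideal L // I.IsMaximal ∧ Nat.card (L ⧸ I) = 2 ^ f}, f ≤
        ∑ I : {I : Ideal L // I.IsMaximal ∧ Nat.card (L ⧸ I) = 2 ^ f},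
        Nat.card {φ : L →+* GaloisField 2 h // RingHom.ker φ = I.1} := by
      refine Finset.sum_le_sum fun I _ => ?_
      exact ker_count hR.two h f (by omega) (hF f hf).1 I.1 I.2.1 I.2.2
    refine le_trans (le_of_eq ?_) h3
    rw [Finset.sum_const, Finset.card_univ, smul_eq_mul, mul_comm]
    unfold NF
    rw [Nat.card_eq_fintype_card]
  let T := Σ f : F, Σ I : {I : Ideal L // I.IsMaximal ∧ Nat.card (L ⧸ I) = 2 ^ (f : ℕ)},
    {φ : L →+* GaloisField 2 h // RingHom.ker φ = I.1}
  have hT : Nat.card T = ∑ f : F, ∑ I : {I : Ideal L // I.IsMaximal ∧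
      Nat.card (L ⧸ I) = 2 ^ (f : ℕ)},
      Nat.card {φ : L →+* GaloisField 2 h // RingHom.ker φ = I.1} := by
    rw [Nat.card_sigma]
    refine Finset.sum_congr rfl fun f _ => ?_
    rw [Nat.card_sigma]
  have hle : ∑ f ∈ F, f * NF L f ≤ Nat.card T := by
    rw [hT, ← Finset.sum_coe_sort F (fun f => f * NF L f)]
    exact Finset.sum_le_sum fun f _ => hsum f f.2
  refine hle.trans ?_
  have hxk : ∀ φ : L →+* GaloisField 2 h, φ (x : L) ^ k = φ (x : L) + 1 := by
    intro φ
    rw [← map_pow, hR.xk, map_add, map_one]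
  let g : T → {α : GaloisField 2 h // α ^ k = α + 1} := fun τ => ⟨τ.2.2.1 (x : L), hxk _⟩
  have : Finite {α : GaloisField 2 h // α ^ k = α + 1} := inferInstance
  refine Nat.card_le_card_of_injective g ?_
  rintro ⟨⟨f, hf⟩, ⟨I, hI, hc⟩, ⟨φ, hφ⟩⟩ ⟨⟨f', hf'⟩, ⟨I', hI', hc'⟩, ⟨φ', hφ'⟩⟩ e
  have e1 : φ (x : L) = φ' (x : L) := congrArg Subtype.val e
  have e2 : φ = φ' := hom_ext _ hR.gn φ φ' e1
  subst e2
  have e3 : I = I' := hφ.symm.trans hφ'
  subst e3
  have e4 : f = f' := Nat.pow_right_injective (le_refl 2) (hc.symm.trans hc')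
  subst e4
  rfl

end Pool.Agent.Helper28.C2
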